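import Mathlib
import Pool.Agent.H618.GL.Tree

/-!
# The gcd recursion for Goldbach pairs: `g_N ≥ (log N)² / 72000`

At odd steps the gcd divides `2 N - n`, and it can be of the size of `N`. If `G`, `G'` are the gcds
at two odd steps, then the gcds in between add up to at least `G G' / (2 N)`. Here no large gcd is
looked for by averaging over all steps, which would cost a factor `g_N` and with it a `log log N`:
either one gcd takes a constant share of that sum, or there are so many smaller ones that the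
Farey trees between these are enough.
-/

set_option autoImplicit false

namespace Pool.Agent.Results.MP_b5e119_nt.LogSquared

open Filter Topology Pool.Agent.R330.GL

lemma des (N : ℕ) (hN : 3 ≤ N) (a : ℕ → ℤ) (ha1 : a 1 = (N : ℤ) - 2)
    (ha : ∀ n : ℕ, 2 ≤ n → a n = a (n - 1) -
        ((Int.gcd (a (n - 1)) ((N : ℤ) - (-1) ^ n * ((N : ℤ) - n)) : ℕ) : ℤ))
    (f : ℕ) (hf : IsLeast {n : ℕ | 2 ≤ n ∧ a n = 0} f) :
    Des N f a (fun n => ((Int.gcd (a (n - 1)) (V N n) : ℕ) : ℤ)) := by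
  obtain ⟨⟨hf1, haf⟩, hmin⟩ := hf
  have hmin' : ∀ k, 1 ≤ k → k < f → a k ≠ 0 := by
    intro k hk1 hk2 hk3
    rcases Nat.lt_or_ge k 2 with h | h
    · have : k = 1 := by omega
      subst this
      rw [ha1] at hk3
      omega
    · have := hmin ⟨h, hk3⟩
      omega
  have hnn : ∀ k, 1 ≤ k → k ≤ f → 0 ≤ a k := by
    intro k hk
    induction k, hk using Nat.le_induction with
    | base => intro _; rw [ha1]; omega
    | succ k hk ih =>
      intro hkf
      have h1 := ih (by omega)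
      have hpos : 0 < a k := lt_of_le_of_ne h1 (Ne.symm (hmin' k hk (by omega)))
      rw [ha (k + 1) (by omega), Nat.add_sub_cancel]
      have := Int.le_of_dvd hpos (Int.gcd_dvd_left (a := a k)
        (b := (N : ℤ) - (-1) ^ (k + 1) * ((N : ℤ) - ((k + 1 : ℕ) : ℤ))))
      linarith
  refine ⟨ha1, fun n hn _ => ha n hn, ?_, ?_, ?_, haf, hf1, hnn⟩
  · intro n hn hnf
    have h0 : a (n - 1) ≠ 0 := hmin' (n - 1) (by omega) (by omega)
    have := Int.gcd_pos_of_ne_zero_left (V N n) h0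
    exact_mod_cast this
  · intro n _ _
    exact Int.gcd_dvd_left _ _
  · intro n _ _
    exact Int.gcd_dvd_right _ _

lemma large : ∀ᶠ N : ℕ in atTop,
    64 * (Real.log N) ^ 4 ≤ (N : ℝ) ∧ 16 * ((Real.log N) ^ 2 + 4) ≤ (N : ℝ) ∧
    (Real.log N) ^ 4 ≤ Real.exp (Real.log N / 10) ∧ (20 : ℝ) ≤ Real.log N := by
  have hcast : Tendsto (fun N : ℕ => (N : ℝ)) atTop atTop := tendsto_natCast_atTop_atTop
  have hlog : Tendsto (fun N : ℕ => Real.log N) atTop atTop := Real.tendsto_log_atTop.comp hcast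
  have p4 : ∀ᶠ x : ℝ in atTop, 64 * (Real.log x) ^ 4 ≤ x := by
    have h1 := (Real.isLittleO_pow_log_id_atTop (n := 4)).def (show (0 : ℝ) < 1 / 64 by norm_num)
    filter_upwards [h1, eventually_ge_atTop (1 : ℝ)] with x hx hx1
    rw [Real.norm_eq_abs, Real.norm_eq_abs, id, abs_of_nonneg (by linarith : (0 : ℝ) ≤ x)] at hx
    have := (le_abs_self _).trans hx
    linarith
  have p2 : ∀ᶠ x : ℝ in atTop, 16 * ((Real.log x) ^ 2 + 4) ≤ x := by
    have h1 := (Real.isLittleO_pow_log_id_atTop (n := 2)).def (show (0 : ℝ) < 1 / 32 by norm_num)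
    filter_upwards [h1, eventually_ge_atTop (128 : ℝ)] with x hx hx1
    rw [Real.norm_eq_abs, Real.norm_eq_abs, id, abs_of_nonneg (by linarith : (0 : ℝ) ≤ x)] at hx
    have := (le_abs_self _).trans hx
    linarith
  have p3 : ∀ᶠ y : ℝ in atTop, y ^ 4 ≤ Real.exp (y / 10) := by
    have h1 : Tendsto (fun y : ℝ => Real.exp (y / 10) / (y / 10) ^ 4) atTop atTop :=
      (Real.tendsto_exp_div_pow_atTop 4).comp (tendsto_id.atTop_div_const (by norm_num))
    filter_upwards [h1.eventually_ge_atTop 10000, eventually_gt_atTop (0 : ℝ)] with y hy hy0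
    rw [le_div_iff₀ (by positivity)] at hy
    calc y ^ 4 = 10000 * (y / 10) ^ 4 := by ring
      _ ≤ _ := hy
  filter_upwards [hcast.eventually p4, hcast.eventually p2, hlog.eventually p3,
    hlog.eventually_ge_atTop 20] with N h1 h2 h3 h4
  exact ⟨h1, h2, h3, h4⟩

/-- `g_N ≥ (log N)² / 72000` for all large `N` -/
theorem result :
    ∃ N₀ : ℕ, ∀ N : ℕ, N₀ ≤ N → ∀ a : ℕ → ℤ, a 1 = (N : ℤ) - 2 →
      (∀ n : ℕ, 2 ≤ n → a n = a (n - 1) -
        ((Int.gcd (a (n - 1)) ((N : ℤ) - (-1) ^ n * ((N : ℤ) - n)) : ℕ) : ℤ)) →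
      ∀ g : ℕ, IsLeast {n : ℕ | 2 ≤ n ∧ a n = 0} g →
        (Real.log N) ^ 2 / 72000 ≤ (g : ℝ) := by
  obtain ⟨N₁, hN₁⟩ := eventually_atTop.1 large
  refine ⟨max N₁ 3, fun N hN a ha1 ha g hg => ?_⟩
  have hN3 : 3 ≤ N := (le_max_right _ _).trans hN
  obtain ⟨h1, h2, h3, h4⟩ := hN₁ N ((le_max_left _ _).trans hN)
  have hd := des N hN3 a ha1 ha g hg
  set L : ℝ := Real.log N with hL
  have hL0 : 0 < L := by linarith
  by_contra hcon
  push Not at hcon
  have hgL : (g : ℝ) ≤ L ^ 2 := by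
    have e3 : 0 ≤ L ^ 2 := by positivity
    linarith
  have hg0 : (0 : ℝ) ≤ g := by positivity
  have hgL4 : (g : ℝ) ^ 2 ≤ L ^ 4 := by
    have e1 : (g : ℝ) ^ 2 ≤ (L ^ 2) ^ 2 := pow_le_pow_left₀ hg0 hgL 2
    have e2 : (L ^ 2) ^ 2 = L ^ 4 := by ring
    rwa [e2] at e1
  have hf1 : 64 * g ^ 2 ≤ N := by
    have : 64 * (g : ℝ) ^ 2 ≤ N := by linarith
    exact_mod_cast this
  have hf2 : 16 * (g + 4) ≤ N := by
    have : 16 * ((g : ℝ) + 4) ≤ N := by linarith
    exact_mod_cast this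
  set K : ℕ := ⌊L / 10⌋₊ with hK
  have hK1 : L / 10 < K + 1 := Nat.lt_floor_add_one _
  have hK2 : (K : ℝ) ≤ L / 10 := Nat.floor_le (by positivity)
  have hKlow : L / 20 ≤ (K : ℝ) := by linarith
  have hN0 : (0 : ℝ) < N := by exact_mod_cast (by omega : 0 < N)
  have hpowR : (g : ℝ) ^ 2 * 4096 ^ K ≤ (N : ℝ) := by
    have hlogb : Real.log 4096 ≤ 9 := by
      have : (4096 : ℝ) = 2 ^ 12 := by norm_num
      rw [this, Real.log_pow]
      have := Real.log_two_lt_d9
      push_cast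
      linarith
    have hlogK : (K : ℝ) * Real.log 4096 ≤ 9 / 10 * L := by
      have hb1 : 0 ≤ Real.log 4096 := Real.log_nonneg (by norm_num)
      calc (K : ℝ) * Real.log 4096 ≤ L / 10 * 9 :=
            mul_le_mul hK2 hlogb hb1 (by positivity)
        _ = 9 / 10 * L := by ring
    have hreal : (4096 : ℝ) ^ K ≤ Real.exp (9 / 10 * L) := by
      rw [← Real.log_le_iff_le_exp (by positivity), Real.log_pow]
      exact hlogK
    have hexp : Real.exp (L / 10) * Real.exp (9 / 10 * L) = N := by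
      rw [← Real.exp_add]
      have : L / 10 + 9 / 10 * L = L := by ring
      rw [this, hL, Real.exp_log hN0]
    calc (g : ℝ) ^ 2 * 4096 ^ K ≤ Real.exp (L / 10) * Real.exp (9 / 10 * L) :=
          mul_le_mul (hgL4.trans h3) hreal (by positivity) (by positivity)
      _ = N := hexp
  have hpowZ : (g : ℤ) ^ 2 * 4096 ^ K ≤ 4 * 4096 ^ 2 * N := by
    have : (g : ℝ) ^ 2 * 4096 ^ K ≤ 4 * 4096 ^ 2 * (N : ℝ) := by linarith
    exact_mod_cast this
  have hfin := Pool.Agent.H618.GL.finite2 hd hf1 hf2 K hpowZ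
  have hfinR : (K : ℝ) ^ 2 ≤ 180 * (g : ℝ) := by exact_mod_cast hfin
  have hsq : (L / 20) ^ 2 ≤ (K : ℝ) ^ 2 := pow_le_pow_left₀ (by positivity) hKlow 2
  have e : (L / 20) ^ 2 = L ^ 2 / 400 := by ring
  rw [e] at hsq
  linarith

end Pool.Agent.Results.MP_b5e119_nt.LogSquared
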